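import Pool.Agent.H5.KJ.JC
import Pool.Agent.H72.KJ.J5

/-!
# The core of LEMMA J, no hypotheses
-/

set_option autoImplicit false

namespace Pool.KJ

/-- **(JC)** -/
theorem jcs_thm : JCStmt := jc_thm j5_thm

end Pool.KJ
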