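import Pool.Agent.H5.KJ.JCN

/-!
# The choice of the constants for the core of LEMMA J
-/

set_option autoImplicit false

namespace Pool.KJ

open Real

/-- The error of the entropy part. -/
theorem jc_err (n : ℕ) (w K pB CD Ce bd Sc C₂ c₀ τ η₂ η₁ E e₀ L s l2 ls : ℝ) (hw : 4 ≤ w)
    (hpB : 0 < pB) (hK1 : 1 ≤ K) (hCe : Ce = 4 * n + |CD| + 4) (hK : 2 * w ^ 2 * Ce / pB ≤ K)
    (hbd : bd = 1 / (16 * w ^ 2)) (hSc : 0 < Sc) (hC₂ : 1 ≤ C₂) (hτ : C₂ * c₀ * τ = bd)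
    (hτ0 : 0 < τ) (hη₂0 : 0 < η₂) (hη₂1 : η₂ ≤ 1) (hη₂a : Sc * η₂ ≤ bd * pB)
    (hη₂b : C₂ * (E + 4) * (Sc * η₂) ≤ bd * pB * τ) (hη₁ : η₁ ≤ η₂) (hE : 0 ≤ E)
    (he₀ : 1 ≤ e₀) (hL0 : 0 ≤ L) (hL : L ≤ E * e₀) (hs0 : 0 ≤ s) (hs : s ≤ Sc) (hl0 : 0 ≤ l2)
    (hl1 : l2 ≤ 1) (hls : ls + C₂ ≤ bd * e₀) (hg : C₂ * (E + 4) / τ ≤ bd * e₀) :
    (n * (3 * e₀ * l2) + η₂ * e₀ + CD * e₀ + (n + 1) * e₀ + 1 + s * (η₂ * e₀ + η₁ * e₀)) / pB +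
      ls + C₂ * (1 + τ * e₀ * c₀) + C₂ * (3 * e₀ + L + 1) * ((s * (η₂ * e₀) / pB + 1) / (τ * e₀))
      ≤ K * e₀ / w ^ 2 := by
  have hw0 : 0 < w := by linarith only [hw]
  have he0 : 0 < e₀ := by linarith only [he₀]
  have hn0 : (0 : ℝ) ≤ n := Nat.cast_nonneg n
  have hbd0 : 0 < bd := by rw [hbd]; positivity
  have hsη : s * η₂ ≤ bd * pB := (mul_le_mul_of_nonneg_right hs hη₂0.le).trans hη₂a
  -- the first part
  have a1 : (n * (3 * e₀ * l2) + η₂ * e₀ + CD * e₀ + (n + 1) * e₀ + 1) / pB ≤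
      K * e₀ / w ^ 2 / 2 := by
    have h1 : n * (3 * e₀ * l2) + η₂ * e₀ + CD * e₀ + (n + 1) * e₀ + 1 ≤ Ce * e₀ := by
      have h2 : 3 * e₀ * l2 ≤ 3 * e₀ := by
        have := mul_le_mul_of_nonneg_left hl1 (by linarith only [he₀] : 0 ≤ 3 * e₀)
        linarith only [this]
      have h3 : n * (3 * e₀ * l2) ≤ n * (3 * e₀) := mul_le_mul_of_nonneg_left h2 hn0
      have h4 : η₂ * e₀ ≤ 1 * e₀ := mul_le_mul_of_nonneg_right hη₂1 he0.le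
      have h5 : CD * e₀ ≤ |CD| * e₀ := mul_le_mul_of_nonneg_right (le_abs_self CD) he0.le
      rw [hCe]
      have h6 : (4 * (n : ℝ) + |CD| + 4) * e₀ = n * (3 * e₀) + |CD| * e₀ + (n + 1) * e₀ +
        3 * e₀ := by ring
      rw [h6]
      linarith only [he₀, h3, h4, h5]
    have h2 : Ce * e₀ / pB ≤ K * e₀ / w ^ 2 / 2 := by
      rw [div_div, le_div_iff₀ (by positivity)]
      have h3 := mul_le_mul_of_nonneg_right hK he0.le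
      calc Ce * e₀ / pB * (w ^ 2 * 2) = 2 * w ^ 2 * Ce / pB * e₀ := by ring
        _ ≤ K * e₀ := h3
    exact (div_le_div_of_nonneg_right h1 hpB.le).trans h2
  -- the second part
  have a2 : s * (η₂ * e₀ + η₁ * e₀) / pB ≤ 2 * (bd * e₀) := by
    rw [div_le_iff₀ hpB]
    have h1 : η₁ * e₀ ≤ η₂ * e₀ := mul_le_mul_of_nonneg_right hη₁ he0.le
    have h2 : s * (η₂ * e₀ + η₁ * e₀) ≤ s * (2 * (η₂ * e₀)) :=
      mul_le_mul_of_nonneg_left (by linarith only [h1]) hs0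
    have h3 : s * (2 * (η₂ * e₀)) = 2 * (s * η₂ * e₀) := by ring
    have h4 : s * η₂ * e₀ ≤ bd * pB * e₀ := mul_le_mul_of_nonneg_right hsη he0.le
    calc s * (η₂ * e₀ + η₁ * e₀) ≤ 2 * (bd * pB * e₀) := by linarith only [h2, h4]
      _ = 2 * (bd * e₀) * pB := by ring
  have a3 : C₂ * (τ * e₀ * c₀) = bd * e₀ := by
    rw [← hτ]
    ring
  -- the last part
  have a4 : C₂ * (3 * e₀ + L + 1) * ((s * (η₂ * e₀) / pB + 1) / (τ * e₀)) ≤ 2 * (bd * e₀) := by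
    have h1 : 3 * e₀ + L + 1 ≤ (E + 4) * e₀ := by
      have : (E + 4) * e₀ = E * e₀ + 3 * e₀ + e₀ := by ring
      linarith only [he₀, hL]
    have h2 : 0 ≤ (s * (η₂ * e₀) / pB + 1) / (τ * e₀) := by positivity
    have h3 : C₂ * (3 * e₀ + L + 1) ≤ C₂ * ((E + 4) * e₀) :=
      mul_le_mul_of_nonneg_left h1 (by linarith only [hC₂])
    have h4 : C₂ * (3 * e₀ + L + 1) * ((s * (η₂ * e₀) / pB + 1) / (τ * e₀)) ≤
        C₂ * ((E + 4) * e₀) * ((s * (η₂ * e₀) / pB + 1) / (τ * e₀)) :=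
      mul_le_mul_of_nonneg_right h3 h2
    have h5 : C₂ * ((E + 4) * e₀) * ((s * (η₂ * e₀) / pB + 1) / (τ * e₀)) =
        C₂ * (E + 4) * (s * η₂) / (pB * τ) * e₀ + C₂ * (E + 4) / τ := by
      field_simp
    have h6 : C₂ * (E + 4) * (s * η₂) / (pB * τ) ≤ bd := by
      rw [div_le_iff₀ (by positivity)]
      have h7 : s * η₂ ≤ Sc * η₂ := mul_le_mul_of_nonneg_right hs hη₂0.le
      have h8 : 0 ≤ C₂ * (E + 4) := mul_nonneg (by linarith only [hC₂]) (by linarith only [hE])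
      have h9 := mul_le_mul_of_nonneg_left h7 h8
      linarith only [hη₂b, h9]
    have h7 := mul_le_mul_of_nonneg_right h6 he0.le
    linarith only [hg, h4, h5, h7]
  have a5 : 6 * (bd * e₀) ≤ K * e₀ / w ^ 2 / 2 := by
    rw [hbd, div_div, le_div_iff₀ (by positivity)]
    have h1 : 6 * (1 / (16 * w ^ 2) * e₀) * (w ^ 2 * 2) = 3 / 4 * e₀ := by
      field_simp
      norm_num
    rw [h1]
    have h2 := mul_le_mul_of_nonneg_right hK1 he0.le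
    linarith only [he₀, h2]
  have a6 : (n * (3 * e₀ * l2) + η₂ * e₀ + CD * e₀ + (n + 1) * e₀ + 1 +
      s * (η₂ * e₀ + η₁ * e₀)) / pB = (n * (3 * e₀ * l2) + η₂ * e₀ + CD * e₀ + (n + 1) * e₀ +
      1) / pB + s * (η₂ * e₀ + η₁ * e₀) / pB := add_div _ _ _
  have a7 : C₂ * (1 + τ * e₀ * c₀) = C₂ + C₂ * (τ * e₀ * c₀) := by ring
  rw [a6, a7, a3]
  linarith only [hls, a1, a2, a4, a5]

/-- The fullness of the leaf. -/
theorem jc_ful (n : ℕ) (CC Cu κ₁ η₁ η₂ E e₀ L γ ε e₁ : ℝ) (hCC : 1 ≤ CC) (hCn : (n : ℝ) ≤ CC)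
    (hCu : Cu ≤ CC) (hκ0 : 0 < κ₁) (hκ : 8 * CC * E ≤ κ₁ * η₂)
    (hη₁0 : 0 < η₁) (hη₁ : η₁ * (8 * CC * (E + 1)) ≤ η₂) (hE : 0 ≤ E) (he₀ : 0 ≤ e₀)
    (hL0 : 0 ≤ L) (hL : L ≤ E * e₀) (hγ0 : 0 ≤ γ) (hγ : γ ≤ η₁ * e₀) (hε0 : 0 ≤ ε)
    (hε : ε ≤ η₁) (he₁0 : 0 ≤ e₁) (he₁ : e₁ ≤ η₁ * e₀)
    (hg : 8 * CC * (κ₁ + 1) ≤ η₂ * e₀) :
    n * e₁ + Cu * (L / κ₁ + γ + κ₁ + 1 + ε * L) ≤ η₂ * e₀ := by
  have hCC0 : 0 < CC := by linarith only [hCC]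
  have hx0 : 0 ≤ CC * (η₁ * e₀) := by positivity
  have hy0 : 0 ≤ CC * (η₁ * e₀) * E := by positivity
  have w0 : 8 * (CC * (η₁ * e₀)) + 8 * (CC * (η₁ * e₀) * E) ≤ η₂ * e₀ := by
    have h1 := mul_le_mul_of_nonneg_right hη₁ he₀
    calc 8 * (CC * (η₁ * e₀)) + 8 * (CC * (η₁ * e₀) * E) = η₁ * (8 * CC * (E + 1)) * e₀ := by
          ring
      _ ≤ η₂ * e₀ := h1
  have w1 : CC * (η₁ * e₀) ≤ η₂ * e₀ / 8 := by linarith only [hy0, w0]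
  have w2 : CC * (ε * L) ≤ η₂ * e₀ / 8 := by
    have h2 : ε * L ≤ η₁ * (E * e₀) := mul_le_mul hε hL hL0 hη₁0.le
    have h3 : CC * (ε * L) ≤ CC * (η₁ * (E * e₀)) := mul_le_mul_of_nonneg_left h2 hCC0.le
    have h4 : CC * (η₁ * (E * e₀)) = CC * (η₁ * e₀) * E := by ring
    linarith only [hx0, w0, h3]
  have w3 : CC * (L / κ₁) ≤ η₂ * e₀ / 8 := by
    rw [← mul_div_assoc, div_le_iff₀ hκ0]
    have h1 : CC * L ≤ CC * (E * e₀) := mul_le_mul_of_nonneg_left hL hCC0.le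
    have h2 := mul_le_mul_of_nonneg_right hκ he₀
    have h3 : 8 * CC * E * e₀ = 8 * (CC * (E * e₀)) := by ring
    have h4 : η₂ * e₀ / 8 * κ₁ = κ₁ * η₂ * e₀ / 8 := by ring
    rw [h4]
    linarith only [h1, h2]
  have w4 : CC * γ ≤ η₂ * e₀ / 8 := (mul_le_mul_of_nonneg_left hγ hCC0.le).trans w1
  have w5 : (n : ℝ) * e₁ ≤ η₂ * e₀ / 8 := (mul_le_mul hCn he₁ he₁0 hCC0.le).trans w1
  have hq : 0 ≤ L / κ₁ := by positivity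
  have hεL : 0 ≤ ε * L := mul_nonneg hε0 hL0
  have w6 : Cu * (L / κ₁ + γ + κ₁ + 1 + ε * L) ≤ CC * (L / κ₁ + γ + κ₁ + 1 + ε * L) :=
    mul_le_mul_of_nonneg_right hCu (by linarith only [hκ0, hγ0, hq, hεL])
  have w7 : CC * (L / κ₁ + γ + κ₁ + 1 + ε * L) = CC * (L / κ₁) + CC * γ + CC * (κ₁ + 1) +
    CC * (ε * L) := by ring
  have w8 : CC * (κ₁ + 1) ≤ η₂ * e₀ / 8 := by linarith only [hg]
  have w9 : 0 ≤ η₂ * e₀ := by linarith only [hx0, hy0, w0]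
  linarith only [hg, hx0, hy0, w0, w2, w3, w4, w5, w6]

/-- The choice of the constants. -/
theorem jc_const (n w c₀ E M : ℕ) (pB K CD C₂ Cu η' : ℝ) (hw : 4 ≤ w) (hpB : 0 < pB)
    (hK1 : 1 ≤ K) (hK : 2 * w ^ 2 * (4 * n + |CD| + 4) / pB ≤ K) (hC₂ : 1 ≤ C₂) (hCu : 0 ≤ Cu)
    (hη' : 0 < η') (hc₀ : 1 ≤ c₀) (hM : 1 ≤ M) :
    ∃ (τ η₂ η₁ : ℝ) (κ₁ m₁ : ℕ), 0 < τ ∧ 0 < η₂ ∧ 0 < η₁ ∧ η₁ ≤ η' ∧ 1 ≤ κ₁ ∧
      ∀ (m e₀ L γ sc : ℕ) (e₁ ε : ℝ), m₁ ≤ m → e₀ = M * m → L ≤ E * e₀ → 0 ≤ e₁ →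
        e₁ ≤ η₁ * e₀ → γ ≤ η₁ * e₀ → 0 ≤ ε → ε ≤ η₁ → 1 ≤ sc → sc ≤ E * M + 1 →
        1 ≤ m ∧ 2 ≤ e₀ ∧ n * e₁ + Cu * (L / κ₁ + γ + κ₁ + 1 + ε * L) ≤ η₂ * e₀ ∧
        C₂ ≤ (e₀ : ℝ) / (2 * w) * Real.log 2 ∧
        τ * e₀ ≤ (e₀ : ℝ) / (2 * w) * Real.log 2 ∧
        (n * (((3 * e₀ : ℕ) : ℝ) * Real.log 2) + η₂ * e₀ + CD * e₀ + (n + 1) * e₀ + 1 +
          sc * (η₂ * e₀ + η₁ * e₀)) / pB + Real.log sc + C₂ * (1 + τ * e₀ * c₀) +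
          C₂ * (((3 * e₀ : ℕ) : ℝ) + L + 1) * ((sc * (η₂ * e₀) / pB + 1) / (τ * e₀))
          ≤ K * ((M * m : ℕ) : ℝ) / w ^ 2 := by
  have hl2 : 0 < Real.log 2 := Real.log_pos (by norm_num)
  have hl21 : Real.log 2 < 1 := by
    have := Real.log_two_lt_d9
    linarith only [hl2, this]
  have hl22 : 1 / 2 < Real.log 2 := by
    have := Real.log_two_gt_d9
    linarith only [hl21, this]
  have hwr : (4 : ℝ) ≤ w := by exact_mod_cast hw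
  have hw0 : (0 : ℝ) < w := by linarith only [hl21, hl22, hwr]
  have hc₀r : (1 : ℝ) ≤ c₀ := by exact_mod_cast hc₀
  have hc₀0 : (0 : ℝ) < c₀ := by linarith only [hl21, hl22, hc₀r]
  have hE0 : (0 : ℝ) ≤ E := Nat.cast_nonneg E
  have hM0 : (0 : ℝ) ≤ M := Nat.cast_nonneg M
  have hn0 : (0 : ℝ) ≤ n := Nat.cast_nonneg n
  have hC₂0 : 0 < C₂ := by linarith only [hC₂, hl21, hl22]
  obtain ⟨Sc, hSc⟩ : ∃ Sc : ℝ, Sc = E * M + 1 := ⟨_, rfl⟩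
  have hSc1 : 1 ≤ Sc := by
    rw [hSc]
    have : 0 ≤ (E : ℝ) * M := mul_nonneg hE0 hM0
    linarith only [this]
  have hSc0 : 0 < Sc := by linarith only [hl21, hl22, hSc1]
  obtain ⟨bd, hbd⟩ : ∃ bd : ℝ, bd = 1 / (16 * w ^ 2) := ⟨_, rfl⟩
  have hbd0 : 0 < bd := by rw [hbd]; positivity
  have hbd1 : bd ≤ 1 / (16 * w) := by
    rw [hbd]
    refine one_div_le_one_div_of_le (by positivity) ?_
    have : (w : ℝ) * 1 ≤ w * w := mul_le_mul_of_nonneg_left (by linarith only [hl21, hl22, hwr]) hw0.le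
    rw [pow_two]
    linarith only [this]
  obtain ⟨τ, hτ⟩ : ∃ τ : ℝ, τ = bd / (C₂ * c₀) := ⟨_, rfl⟩
  have hτ0 : 0 < τ := by rw [hτ]; positivity
  have hτe : C₂ * c₀ * τ = bd := by
    rw [hτ]
    field_simp
  have hτ1 : τ ≤ bd := by
    rw [hτ]
    refine div_le_self hbd0.le ?_
    calc (1 : ℝ) = 1 * 1 := by ring
      _ ≤ C₂ * c₀ := mul_le_mul hC₂ hc₀r zero_le_one hC₂0.le
  obtain ⟨η₂, hη₂⟩ : ∃ η₂ : ℝ, η₂ = min 1 (min (bd * pB / Sc)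
    (bd * pB * τ / (C₂ * (E + 4) * Sc))) := ⟨_, rfl⟩
  have hη₂0 : 0 < η₂ := by
    rw [hη₂]
    refine lt_min one_pos (lt_min ?_ ?_) <;> positivity
  have hη₂a : η₂ ≤ 1 := by rw [hη₂]; exact min_le_left _ _
  have hη₂b : Sc * η₂ ≤ bd * pB := by
    have h1 : η₂ ≤ bd * pB / Sc := by
      rw [hη₂]; exact (min_le_right _ _).trans (min_le_left _ _)
    rw [le_div_iff₀ hSc0] at h1
    linarith only [h1]
  have hη₂c : C₂ * (E + 4) * (Sc * η₂) ≤ bd * pB * τ := by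
    have h1 : η₂ ≤ bd * pB * τ / (C₂ * (E + 4) * Sc) := by
      rw [hη₂]; exact (min_le_right _ _).trans (min_le_right _ _)
    rw [le_div_iff₀ (by positivity)] at h1
    calc C₂ * (E + 4) * (Sc * η₂) = η₂ * (C₂ * (E + 4) * Sc) := by ring
      _ ≤ _ := h1
  obtain ⟨CC, hCC⟩ : ∃ CC : ℝ, CC = Cu + n + 1 := ⟨_, rfl⟩
  have hCC1 : 1 ≤ CC := by rw [hCC]; linarith only [hCu]
  have hCC0 : 0 < CC := by linarith only [hCu, hl21, hl22, hCC]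
  obtain ⟨κ₁, hκ₁⟩ : ∃ κ₁ : ℕ, κ₁ = ⌈8 * CC * E / η₂⌉₊ + 1 := ⟨_, rfl⟩
  have hκ₁1 : 1 ≤ κ₁ := by rw [hκ₁]; exact Nat.succ_le_succ (Nat.zero_le _)
  have hκ₁0 : (0 : ℝ) < κ₁ := by
    have : 0 < κ₁ := hκ₁1
    exact_mod_cast this
  have hκ₁r : 8 * CC * E ≤ κ₁ * η₂ := by
    have h1 : 8 * CC * E / η₂ ≤ κ₁ := by
      rw [hκ₁]
      push_cast
      have := Nat.le_ceil (8 * CC * E / η₂)
      linarith only [hl21, hl22, this]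
    rwa [div_le_iff₀ hη₂0] at h1
  obtain ⟨η₁, hη₁⟩ : ∃ η₁ : ℝ, η₁ = min η' (η₂ / (8 * CC * (E + 1))) := ⟨_, rfl⟩
  have hη₁0 : 0 < η₁ := by
    rw [hη₁]
    refine lt_min hη' ?_
    positivity
  have hη₁a : η₁ ≤ η' := by rw [hη₁]; exact min_le_left _ _
  have hη₁b : η₁ * (8 * CC * (E + 1)) ≤ η₂ := by
    have h1 : η₁ ≤ η₂ / (8 * CC * (E + 1)) := by rw [hη₁]; exact min_le_right _ _
    rwa [le_div_iff₀ (by positivity)] at h1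
  have hη₁₂ : η₁ ≤ η₂ := by
    refine le_trans ?_ hη₁b
    have h1 : 1 ≤ 8 * CC * (E + 1) := by
      have h2 : 0 ≤ CC * E := mul_nonneg hCC0.le hE0
      have h3 : 8 * CC * (E + 1) = 8 * (CC * E) + 8 * CC := by ring
      rw [h3]
      linarith only [hCu, hl21, hl22, hCC, h2]
    exact le_mul_of_one_le_right hη₁0.le h1
  obtain ⟨m₁, hm₁⟩ := exists_nat_gt (8 * CC * (κ₁ + 1) / η₂ + (Real.log Sc + C₂) / bd +
    C₂ * (E + 4) / τ / bd + 2 + 4 * w * C₂)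
  refine ⟨τ, η₂, η₁, κ₁, m₁, hτ0, hη₂0, hη₁0, hη₁a, hκ₁1, ?_⟩
  intro m e₀ L γ sc e₁ ε hm he₀ hLE he₁0 he₁ hγ hε0 hε hsc1 hsc
  have hm2 : (m₁ : ℝ) ≤ m := by exact_mod_cast hm
  have hme : (m : ℝ) ≤ e₀ := by
    rw [he₀]
    exact_mod_cast Nat.le_mul_of_pos_left m hM
  have hlogSc : 0 ≤ Real.log Sc := Real.log_nonneg hSc1
  have q1 : 0 ≤ 8 * CC * (κ₁ + 1) / η₂ := by positivity
  have q2 : 0 ≤ (Real.log Sc + C₂) / bd := by positivity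
  have q3 : 0 ≤ C₂ * (E + 4) / τ / bd := by positivity
  have q4 : 0 ≤ 4 * w * C₂ := by positivity
  have g1 : 8 * CC * (κ₁ + 1) ≤ η₂ * e₀ := by
    have : 8 * CC * (κ₁ + 1) / η₂ ≤ e₀ := by linarith only [hl21, hl22, hm₁, hm2, hme, q2, q3, q4]
    rw [div_le_iff₀ hη₂0] at this
    linarith only [this]
  have g2 : Real.log Sc + C₂ ≤ bd * e₀ := by
    have : (Real.log Sc + C₂) / bd ≤ e₀ := by linarith only [hl21, hl22, hm₁, hm2, hme, q1, q3, q4]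
    rw [div_le_iff₀ hbd0] at this
    linarith only [this]
  have g3 : C₂ * (E + 4) / τ ≤ bd * e₀ := by
    have : C₂ * (E + 4) / τ / bd ≤ e₀ := by linarith only [hl21, hl22, hm₁, hm2, hme, q1, q2, q4]
    rw [div_le_iff₀ hbd0] at this
    linarith only [this]
  have g5 : (2 : ℝ) ≤ e₀ := by linarith only [hm₁, hm2, hme, q1, q2, q3, q4]
  have g6 : 4 * w * C₂ ≤ e₀ := by linarith only [hl21, hl22, hm₁, hm2, hme, q1, q2, q3]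
  have gm : (1 : ℝ) ≤ m := by linarith only [hl21, hl22, hm₁, hm2, q1, q2, q3, q4]
  have he0 : (0 : ℝ) ≤ e₀ := by linarith only [hl21, hl22, hm₁, hm2, hme, q1, q2, q3, q4]
  have hLr : (L : ℝ) ≤ E * e₀ := by exact_mod_cast hLE
  have hL0 : (0 : ℝ) ≤ L := Nat.cast_nonneg L
  have hscr : (sc : ℝ) ≤ Sc := by
    rw [hSc]
    exact_mod_cast hsc
  have hsc1r : (1 : ℝ) ≤ sc := by exact_mod_cast hsc1
  have hlsc : Real.log sc + C₂ ≤ bd * e₀ := by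
    have h1 : Real.log sc ≤ Real.log Sc := Real.log_le_log (by linarith only [hl21, hl22, hsc1r]) hscr
    linarith only [g2, h1]
  refine ⟨by exact_mod_cast gm, by exact_mod_cast g5, ?_, ?_, ?_, ?_⟩
  · exact jc_ful n CC Cu κ₁ η₁ η₂ E e₀ L γ ε e₁ hCC1 (by rw [hCC]; linarith only [hCu, hl21, hl22])
      (by rw [hCC]; linarith only [hl21, hl22]) hκ₁0 hκ₁r hη₁0 hη₁b hE0 he0 hL0 hLr (Nat.cast_nonneg γ) hγ hε0 hε
      he₁0 he₁ g1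
  · have h1 : 2 * C₂ ≤ e₀ / (2 * w) := by
      rw [le_div_iff₀ (by positivity)]
      linarith only [hl21, hl22, hm₁, hm2, hme, q1, q2, q3]
    have h2 : C₂ = 2 * C₂ * (1 / 2) := by ring
    rw [h2]
    exact mul_le_mul h1 hl22.le (by norm_num) (by positivity)
  · have h4 : τ ≤ 1 / (16 * w) := hτ1.trans hbd1
    have h5 : τ * e₀ ≤ 1 / (16 * w) * e₀ := mul_le_mul_of_nonneg_right h4 he0
    have h6 : 1 / (16 * (w : ℝ)) * e₀ = e₀ / (2 * w) / 8 := by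
      field_simp
      norm_num
    have h7 : 0 ≤ (e₀ : ℝ) / (2 * w) := by positivity
    have h8 : (e₀ : ℝ) / (2 * w) * (1 / 2) ≤ (e₀ : ℝ) / (2 * w) * Real.log 2 :=
      mul_le_mul_of_nonneg_left hl22.le h7
    linarith only [h5, h6, h7, h8]
  · have h1 := jc_err n w K pB CD (4 * n + |CD| + 4) bd Sc C₂ c₀ τ η₂ η₁ E e₀ L sc (Real.log 2)
      (Real.log sc) hwr hpB hK1 rfl hK hbd hSc0 hC₂ hτe hτ0 hη₂0 hη₂a hη₂b hη₂c hη₁₂ hE0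
      (by linarith only [hl21, hl22, hm₁, hm2, hme, q1, q2, q3, q4]) hL0 hLr (by linarith only [hl21, hl22, hsc1r]) hscr hl2.le hl21.le hlsc g3
    rw [← he₀]
    have h2 : ((3 * e₀ : ℕ) : ℝ) = 3 * (e₀ : ℝ) := by push_cast; ring
    rw [h2]
    exact h1

end Pool.KJ
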