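import Pool.Agent.H72.KJ.Stmts
import Pool.Agent.H5.KJ.JCE2
import Pool.Agent.H4.KJ.JCG

/-!
# The core of LEMMA J, from the event part (JCE) and the entropy part (J5)
-/

set_option autoImplicit false

namespace Pool.KJ

open Finset Real
open Pool.Agent.H49.Ent Pool.Agent.H32.Dense Pool.STK Pool.KAF Pool.KAL Pool.KST Pool.KS3

/-- The leaf is full. -/
theorem ful_of (n : ℕ) (C₀ : ℝ) (hC₀ : 1 ≤ C₀) : ∃ C : ℝ, 0 ≤ C ∧
    ∀ (a L k₀ κ γ N κ' : ℕ) (δ ε e₁ e₃ : ℝ) (Ω Λ Ξ Z : Type) [Fintype Ω] (p : Ω → ℝ)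
      (lam : Ω → Λ) (x : Ω → Ξ) (T : Ξ → ℕ) (pos : Ξ → Option (Fin n) → ℕ)
      (A B : Λ → Option (Fin n) → ℝ) (zx : Ξ → Z) (zl : Λ → ℕ → Z)
      (cz : Z → Option (Fin n) → ℕ) (G : Z → MvPolynomial (Fin n) ℝ) (e : Ξ → ℝ),
      StepH n a L C₀ k₀ κ γ N δ ε e₁ e₃ p lam x T pos A B zx zl cz G e → 1 ≤ κ' →
      n * (L * Real.log 2) - CH p (fun ω => bas pos (x ω)) (fun ω => zx (x ω)) ≤
        n * e₁ + C * (L / κ' + γ + κ' + 1 + ε * L) := by
  have h3C : (1 : ℝ) ≤ 3 * C₀ := by linarith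
  obtain ⟨Cu, hCu, hful⟩ := fulh_thm n (3 * C₀) h3C
  refine ⟨Cu, hCu, ?_⟩
  intro a L k₀ κ γ N κ' δ ε e₁ e₃ Ω Λ Ξ Z _ p lam x T pos A B zx zl cz G e hF hκ'
  have hp0 := hF.step.leaf.isLaw.nonneg
  have hγ3 : n.factorial * (3 * C₀) ^ n ≤ δ ^ n * 2 ^ γ := by
    refine le_trans ?_ hF.hγ
    have h1 : (0 : ℝ) ≤ n.factorial := Nat.cast_nonneg _
    refine mul_le_mul_of_nonneg_left ?_ h1
    exact pow_le_pow_left₀ (by linarith) (by linarith) _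
  have hfu := hful Ω (Λ × ℕ) Ξ Z p (lamS lam x T L) x (TS T L) (posS pos L)
    (AS A B zl cz a) (BS B) zx (fun l => zl l.1 l.2) L κ' γ δ ε e₁ e (hF.step.small hC₀)
    (fun ω _ => hF.step.lab ω) hF.hδ hF.he hF.hex (NCF_small hF.hnc) hγ3 hκ' hF.he₁
  have h1 : CH p (fun ω => bas (posS pos L) (x ω)) (fun ω => zx (x ω)) ≤
      CH p (fun ω => bas pos (x ω)) (fun ω => zx (x ω)) := by
    refine CH_mono_left hp0 fun ω ω' _ _ h => ?_
    have h2 : bas pos (x ω) = bas pos (x ω') := (Prod.ext_iff.mp h).1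
    funext i
    have h3 : pos (x ω) (some i) = pos (x ω') (some i) := congrFun h2 i
    change pos (x ω) (some i) % 2 ^ L = pos (x ω') (some i) % 2 ^ L
    rw [h3]
  linarith

/-- **(JC)** from (JCE) and (J5). -/
theorem jc_of (hJCE : JCEStmt) (hJ5 : J5Stmt) : JCStmt := by
  classical
  intro n D u w C₀ CD hn hC₀ hw
  obtain ⟨pB, hpB0, hpB1, hE⟩ := hJCE n D u w C₀ CD hn hC₀ hw
  have hwr : (4 : ℝ) ≤ w := by exact_mod_cast hw
  -- the universal constant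
  obtain ⟨K, hK⟩ : ∃ K : ℕ, K = ⌈2 * w ^ 2 * (4 * n + |CD| + 4) / pB⌉₊ + 1 := ⟨_, rfl⟩
  have hK1 : 1 ≤ K := by rw [hK]; exact Nat.succ_le_succ (Nat.zero_le _)
  have hK1r : (1 : ℝ) ≤ K := by exact_mod_cast hK1
  have hKr : 2 * w ^ 2 * (4 * n + |CD| + 4) / pB ≤ K := by
    rw [hK]
    push_cast
    have := Nat.le_ceil (2 * w ^ 2 * (4 * n + |CD| + 4) / pB)
    linarith
  obtain ⟨A₁, hA₁, hE⟩ := hE K hK1
  refine ⟨A₁ + 1, by omega, ?_⟩
  intro k₀ E hE1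
  obtain ⟨M₁, hE⟩ := hE k₀ E hE1
  obtain ⟨C₂, hC₂, h5⟩ := hJ5 n D C₀ hC₀ k₀
  obtain ⟨Cu, hCu, hful⟩ := ful_of n C₀ hC₀
  obtain ⟨c₀, hc₀⟩ : ∃ c₀ : ℕ, c₀ = (k₀ + 1) * D + 1 := ⟨_, rfl⟩
  have hc₀1 : 1 ≤ c₀ := by omega
  refine ⟨max M₁ (c₀ * w ^ 2), fun M hM => ?_⟩
  have hM1 : M₁ ≤ M := (le_max_left _ _).trans hM
  have hM2 : c₀ * w ^ 2 ≤ M := (le_max_right _ _).trans hM
  have hM3 : 1 ≤ M := le_trans (Nat.mul_pos hc₀1 (by positivity)) hM2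
  obtain ⟨η', κ₀, N₀, m', hη', hκ₀, hE⟩ := hE M hM1
  obtain ⟨τ, η₂, η₁, κ₁, m₁, hτ0, hη₂0, hη₁0, hη₁a, hκ₁1, hcon⟩ := jc_const n w c₀ E M pB K CD C₂
    Cu η' hw hpB0 hK1r hKr hC₂ hCu hη' hc₀1 hM3
  refine ⟨η₁, κ₀, N₀, max m' m₁, hη₁0, hκ₀, ?_⟩
  intro m e₀ L r₂ Ω Λ Ξ Z β _ p lam x T pos A B zx zl cz G wz wl γ δ ε e₁ e₃ e Q hm he₀ hmL hLE
    he₁ he₃ hγ hε hF hwz he₅ hQ hcnt hdep hlarge k hk1 hk2
  have hm1 : m' ≤ m := (le_max_left _ _).trans hm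
  have hm2 : m₁ ≤ m := (le_max_right _ _).trans hm
  have he00 : (0 : ℝ) ≤ e₀ := Nat.cast_nonneg e₀
  -- the set of scales
  obtain ⟨S, hS⟩ : ∃ S : Finset ℕ, S = (range (L / m + 1)).image (fun i => m * i) := ⟨_, rfl⟩
  have hScard1 : 1 ≤ S.card := by
    rw [hS]
    exact Finset.card_pos.2 (Finset.Nonempty.image ⟨0, by simp⟩ _)
  have hScard : S.card ≤ E * M + 1 := by
    have h1 : S.card ≤ L / m + 1 := by
      rw [hS]
      refine Finset.card_image_le.trans ?_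
      rw [card_range]
    have h2 : L / m ≤ E * M := by
      refine Nat.div_le_of_le_mul ?_
      calc L ≤ E * e₀ := hLE
        _ = m * (E * M) := by rw [he₀]; ring
    exact h1.trans (Nat.succ_le_succ h2)
  obtain ⟨hm0, hg2, hful2, hcC₂, hcτ, herr⟩ := hcon m e₀ L γ S.card e₁ ε hm2 he₀ hLE hF.he₁0 he₁ hγ
    hF.ε_nonneg hε hScard1 hScard
  have hmono : ∀ z : ℝ, z ≤ η₁ * e₀ → z ≤ η' * e₀ := fun z hz =>
    hz.trans (mul_le_mul_of_nonneg_right hη₁a he00)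
  have hAe : (A₁ + 1) * e₀ = A₁ * e₀ + e₀ := by ring
  obtain ⟨P, β', kk, bb, Bv, hP1, hP2, hP3, hPe, hBv⟩ := hE m e₀ L r₂ Ω Λ Ξ Z p lam x T pos A B
    zx zl cz G γ δ ε e₁ e₃ e Q hm1 he₀ hmL hLE (hmono _ he₁) (hmono _ he₃) (hmono _ hγ)
    (hε.trans hη₁a) hF hQ hdep hlarge k hk1 (by omega)
  have hMP : M ≤ P := le_trans (Nat.le_mul_of_pos_left M hK1) hP1
  refine ⟨P, hMP, ?_, fun k' h hk' hk'2 hOV hSup => ?_⟩
  · refine hP2.trans (Nat.mul_le_mul_right M (by omega))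
  -- the length of the block
  obtain ⟨d, hd⟩ : ∃ d, d = k' - k := ⟨_, rfl⟩
  rw [← hd] at hk'
  have hd1 : 1 ≤ d := by
    rcases Nat.eq_zero_or_pos d with h0 | h0
    · rw [h0, mul_zero] at hk'
      omega
    · exact h0
  have hk'k : k' = k + d := by omega
  have hdP : d ≤ P := by omega
  have hcd : c₀ ≤ d := by
    have h1 : c₀ * w ^ 2 ≤ w * d := hM2.trans (hMP.trans hk')
    have h2 : w * (c₀ * w) ≤ w * d := by
      calc w * (c₀ * w) = c₀ * w ^ 2 := by ring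
        _ ≤ w * d := h1
    have h3 : c₀ * w ≤ d := Nat.le_of_mul_le_mul_left h2 (by omega)
    exact le_trans (Nat.le_mul_of_pos_right c₀ (by omega)) h3
  obtain ⟨hlen, hPd⟩ := jc_len w m P K M c₀ d hw hK1 hP1 hM2 hk' hcd
  rw [← he₀] at hlen
  -- the leaf window
  have hk'L : m * (k' + 1) ≤ L := by
    have h1 : m * (k' + 1) ≤ m * k + (A₁ + 1) * e₀ := by
      have h2 : m * P ≤ A₁ * e₀ := by
        calc m * P ≤ m * (A₁ * M) := Nat.mul_le_mul_left m hP2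
          _ = A₁ * e₀ := by rw [he₀]; ring
      have h3 : m ≤ e₀ := by rw [he₀]; exact Nat.le_mul_of_pos_left m hM3
      have h4 : m * (k' + 1) ≤ m * (k + P + 1) := Nat.mul_le_mul_left m (by omega)
      have h5 : m * (k + P + 1) = m * k + m * P + m := by ring
      omega
    exact h1.trans hk2
  -- the fullness of the leaf
  have hef := (hful (3 * e₀) L k₀ κ₀ γ N₀ κ₁ δ ε e₁ e₃ Ω Λ Ξ Z p lam x T pos A B zx zl cz G e hF
    hκ₁1).trans hful2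
  have hl2 : 0 < Real.log 2 := Real.log_pos (by norm_num)
  have hlenl := mul_le_mul_of_nonneg_right hlen hl2.le
  have he0 : (0 : ℝ) < e₀ := by
    have : 0 < e₀ := by omega
    exact_mod_cast this
  have hτe : 0 < τ * e₀ := mul_pos hτ0 he0
  have hlog : Real.log (1 / Real.exp (-(τ * e₀ * c₀))) = τ * e₀ * c₀ := by
    rw [one_div, ← Real.exp_neg, Real.log_exp, neg_neg]
  have hlf : τ * e₀ * ((k₀ + 1) * D + 1) ≤ Real.log (1 / Real.exp (-(τ * e₀ * c₀))) := by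
    rw [hlog, hc₀]
    push_cast
    exact le_refl _
  have hle1 : Real.exp (-(τ * e₀ * c₀)) ≤ 1 := by
    rw [Real.exp_le_one_iff]
    have : 0 ≤ τ * e₀ * c₀ := mul_nonneg hτe.le (Nat.cast_nonneg _)
    linarith
  have hSL : ∀ b ∈ S, b ≤ L := by
    intro b hb
    rw [hS, Finset.mem_image] at hb
    obtain ⟨i, hi, rfl⟩ := hb
    rw [Finset.mem_range] at hi
    calc m * i ≤ m * (L / m) := Nat.mul_le_mul_left m (by omega)
      _ ≤ L := Nat.mul_div_le L m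
  have key := h5 (3 * e₀) L Ω Λ Ξ Z β p lam x T pos A B zx zl cz G wz wl Q S bb Bv (m * k)
    (m * k + c₀ * m) (m * (d - c₀)) (m * (P / w ^ 2)) (m * k') (m * (k' + 1)) β' kk
    (Real.exp (-(τ * e₀ * c₀))) (τ * e₀) (η₂ * e₀) (CD * e₀) ((n + 1) * e₀)
    (η₁ * e₀) pB h hF.step hF.reg hF.gr hwz hQ hef hcnt he₅ hpB0 hPe hSL
    (by
      intro v hv hB
      obtain ⟨b1, b2, b3, b4, b5, b6, b7, b8⟩ := hBv v hv hB
      refine ⟨?_, ?_, b4, ?_, b6, ?_, b8⟩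
      · rw [hS, Finset.mem_image]
        obtain ⟨i, hi⟩ := b1
        refine ⟨i, ?_, hi.symm⟩
        rw [Finset.mem_range]
        rw [hi] at b2
        have : i ≤ L / m := by
          rw [Nat.le_div_iff_mul_le hm0]
          calc i * m = m * i := by ring
            _ ≤ L := b2
        omega
      · have h1 : m * (d - c₀) ≤ m * P := Nat.mul_le_mul_left m (by omega)
        omega
      · rw [hc₀]
        exact b5
      · refine b7.trans ?_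
        refine div_le_div_of_nonneg_left b6.le (by positivity) ?_
        exact pow_le_pow_right₀ (by norm_num) (Nat.mul_le_mul_left m (by omega)))
    (by omega)
    (by
      have h1 : m * k' = m * k + m * d := by rw [hk'k]; ring
      have h2 : m * d = m * (d - c₀) + c₀ * m := by
        obtain ⟨d', rfl⟩ : ∃ d', d = d' + c₀ := ⟨d - c₀, by omega⟩
        rw [Nat.add_sub_cancel]
        ring
      omega)
    (Nat.mul_le_mul_left m (by omega)) hk'L (Nat.mul_le_mul_left m hPd)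
    (hcC₂.trans hlenl) hOV hSup (Real.exp_pos _) hle1 hτe hlf (hcτ.trans hlenl)
  rw [hlog] at key
  have hfin := jc_full w m P K M c₀ d h _ hw hK1 hP1 hM2 hk' hcd herr (by
    refine key.trans (le_of_eq ?_)
    ring)
  have hdk : (k' : ℝ) - k = d := by
    rw [hk'k]
    push_cast
    ring
  rw [hdk]
  exact hfin

/-- **(JC)** from (J5). -/
theorem jc_thm (hJ5 : J5Stmt) : JCStmt := jc_of jce_thm hJ5

end Pool.KJ
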