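import Mathlib.Analysis.SpecialFunctions.Log.Basic
import Mathlib.Analysis.SpecialFunctions.Pow.Real
import Mathlib.Analysis.Complex.ExponentialBounds
import Mathlib.Tactic

/-!
# Numbers for the core of LEMMA J
-/

set_option autoImplicit false

namespace Pool.KJ

open Real

/-- The block is full. -/
theorem jc_full (w m P K M c₀ d : ℕ) (h err : ℝ) (hw : 4 ≤ w) (hK1 : 1 ≤ K) (hK : K * M ≤ P)
    (hM : c₀ * w ^ 2 ≤ M) (h1 : P ≤ w * d) (hc : c₀ ≤ d)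
    (herr : err ≤ K * ((M * m : ℕ) : ℝ) / w ^ 2)
    (hmain : (((m * (d - c₀) : ℕ) : ℝ) - ((m * (P / w ^ 2) : ℕ) : ℝ)) * Real.log 2 ≤ h + err) :
    (1 - 4 / w) * ((d : ℝ) * (m * Real.log 2)) ≤ h := by
  have hl3 : 1 / 2 < Real.log 2 := by
    have := Real.log_two_gt_d9
    linarith
  have hw0 : (0 : ℝ) < w := by
    have : 0 < w := by omega
    exact_mod_cast this
  have hm0 : (0 : ℝ) ≤ m := Nat.cast_nonneg m
  have hd0 : (0 : ℝ) ≤ d := Nat.cast_nonneg d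
  have h1r : (P : ℝ) ≤ w * d := by exact_mod_cast h1
  have hKr : (K : ℝ) * M ≤ P := by exact_mod_cast hK
  have hMK : c₀ * w ^ 2 ≤ K * M := hM.trans (Nat.le_mul_of_pos_left M hK1)
  have hMr : (c₀ : ℝ) * w ^ 2 ≤ K * M := by exact_mod_cast hMK
  -- the pieces
  have a1 : (c₀ : ℝ) ≤ d / w := by
    rw [le_div_iff₀ hw0]
    have h2 : (c₀ : ℝ) * w ^ 2 ≤ w * d := by linarith
    have h3 : ((c₀ : ℝ) * w) * w ≤ d * w := by
      calc ((c₀ : ℝ) * w) * w = c₀ * w ^ 2 := by ring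
        _ ≤ w * d := h2
        _ = d * w := by ring
    exact le_of_mul_le_mul_right h3 hw0
  have a2 : ((P / w ^ 2 : ℕ) : ℝ) ≤ d / w := by
    have h2 : ((P / w ^ 2 : ℕ) : ℝ) ≤ (P : ℝ) / ((w ^ 2 : ℕ) : ℝ) := Nat.cast_div_le
    refine h2.trans ?_
    push_cast
    rw [div_le_div_iff₀ (by positivity) hw0]
    calc (P : ℝ) * w ≤ (w * d) * w := mul_le_mul_of_nonneg_right h1r hw0.le
      _ = d * w ^ 2 := by ring
  have a3 : err ≤ m * (d / w) := by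
    refine herr.trans ?_
    push_cast
    rw [← mul_div_assoc, div_le_div_iff₀ (by positivity) hw0]
    have h2 : (K : ℝ) * M * m ≤ (w * d) * m := mul_le_mul_of_nonneg_right (hKr.trans h1r) hm0
    calc (K : ℝ) * (M * m) * w = (K * M * m) * w := by ring
      _ ≤ ((w * d) * m) * w := mul_le_mul_of_nonneg_right h2 hw0.le
      _ = m * d * w ^ 2 := by ring
  obtain ⟨X, hX⟩ : ∃ X : ℝ, X = m * (d / w) := ⟨_, rfl⟩
  have hX0 : 0 ≤ X := by rw [hX]; positivity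
  have b1 : ((m * (d - c₀) : ℕ) : ℝ) = m * d - m * c₀ := by
    rw [Nat.cast_mul, Nat.cast_sub hc]
    ring
  have b2 : (m : ℝ) * c₀ ≤ X := by rw [hX]; exact mul_le_mul_of_nonneg_left a1 hm0
  have b3 : ((m * (P / w ^ 2) : ℕ) : ℝ) ≤ X := by
    rw [Nat.cast_mul, hX]
    exact mul_le_mul_of_nonneg_left a2 hm0
  rw [← hX] at a3
  have b4 : (m * d - X - X) * Real.log 2 ≤
      (((m * (d - c₀) : ℕ) : ℝ) - ((m * (P / w ^ 2) : ℕ) : ℝ)) * Real.log 2 := by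
    refine mul_le_mul_of_nonneg_right ?_ (by linarith)
    rw [b1]
    linarith
  have b5 : X ≤ 2 * X * Real.log 2 := by nlinarith
  have b6 : (1 - 4 / w) * ((d : ℝ) * (m * Real.log 2)) = (m * d - 4 * X) * Real.log 2 := by
    rw [hX]
    field_simp
  rw [b6]
  linarith

/-- Lower bound for the length of the block. -/
theorem jc_len (w m P K M c₀ d : ℕ) (hw : 4 ≤ w) (hK1 : 1 ≤ K) (hK : K * M ≤ P)
    (hM : c₀ * w ^ 2 ≤ M) (h1 : P ≤ w * d) (hc : c₀ ≤ d) :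
    ((M * m : ℕ) : ℝ) / (2 * w) ≤
      ((m * (d - c₀) : ℕ) : ℝ) - ((m * (P / w ^ 2) : ℕ) : ℝ) ∧ P / w ^ 2 ≤ d - c₀ := by
  have hw4 : (4 : ℝ) ≤ w := by exact_mod_cast hw
  have hw0 : (0 : ℝ) < w := by linarith
  have hm0 : (0 : ℝ) ≤ m := Nat.cast_nonneg m
  have hd0 : (0 : ℝ) ≤ d := Nat.cast_nonneg d
  have h1r : (P : ℝ) ≤ w * d := by exact_mod_cast h1
  have hKr : (K : ℝ) * M ≤ P := by exact_mod_cast hK
  have hMK : c₀ * w ^ 2 ≤ K * M := hM.trans (Nat.le_mul_of_pos_left M hK1)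
  have hMr : (c₀ : ℝ) * w ^ 2 ≤ K * M := by exact_mod_cast hMK
  have hM1 : (M : ℝ) ≤ K * M := by
    have : M ≤ K * M := Nat.le_mul_of_pos_left M hK1
    exact_mod_cast this
  have a1 : (c₀ : ℝ) ≤ d / w := by
    rw [le_div_iff₀ hw0]
    have h2 : (c₀ : ℝ) * w ^ 2 ≤ w * d := by linarith
    have h3 : ((c₀ : ℝ) * w) * w ≤ d * w := by
      calc ((c₀ : ℝ) * w) * w = c₀ * w ^ 2 := by ring
        _ ≤ w * d := h2
        _ = d * w := by ring
    exact le_of_mul_le_mul_right h3 hw0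
  have a2 : ((P / w ^ 2 : ℕ) : ℝ) ≤ d / w := by
    have h2 : ((P / w ^ 2 : ℕ) : ℝ) ≤ (P : ℝ) / ((w ^ 2 : ℕ) : ℝ) := Nat.cast_div_le
    refine h2.trans ?_
    push_cast
    rw [div_le_div_iff₀ (by positivity) hw0]
    calc (P : ℝ) * w ≤ (w * d) * w := mul_le_mul_of_nonneg_right h1r hw0.le
      _ = d * w ^ 2 := by ring
  have a3 : (d : ℝ) / w ≤ d / 4 := div_le_div_of_nonneg_left hd0 (by norm_num) hw4
  have a4 : (M : ℝ) / w ≤ d := by
    rw [div_le_iff₀ hw0]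
    linarith
  have e1 : ((d - c₀ : ℕ) : ℝ) = d - c₀ := Nat.cast_sub hc
  have e2 : ((P / w ^ 2 : ℕ) : ℝ) ≤ ((d - c₀ : ℕ) : ℝ) := by
    rw [e1]
    linarith
  refine ⟨?_, by exact_mod_cast e2⟩
  rw [Nat.cast_mul M m, Nat.cast_mul m (d - c₀), Nat.cast_mul m (P / w ^ 2), e1]
  have e3 : (M : ℝ) * m / (2 * w) = m * (M / w / 2) := by
    field_simp
  rw [e3, ← mul_sub]
  refine mul_le_mul_of_nonneg_left ?_ hm0
  linarith

end Pool.KJ
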